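import Mathlib
import Pool.Agent.Y241.MC.Main

set_option autoImplicit false

namespace Pool.Agent.Results.MP_e5a626_al.ContainsFreeTimesZ

open Pool.Agent.Helper45 Pool.Agent.Y241.MC Monoid

universe u v w

/-- For every nonempty alphabet `X` and every group `M` that contains the direct product of a free
group of rank two and an infinite cyclic group, the monoid free product of the free monoid on `X`
and `M`, which embeds in a group, is not Malcev coherent.  In particular this holds for `M = F × H`,
a Malcev coherent group, whenever `F` is virtually free and contains a free group of rank two and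
`H` is virtually nilpotent and has an element of infinite order. -/
theorem result :
    (∀ (X : Type u) [Nonempty X] (M : Type v) [Group M]
      (f : FreeGroup (Fin 2) × Multiplicative ℤ →* M), Function.Injective f →
      ¬ MalcevCoherent (Coprod (FreeMonoid X) M)) ∧
    (∀ (X : Type u) [Nonempty X] (F : Type v) (H : Type w) [Group F] [Group H],
      (∃ K : Subgroup F, K.FiniteIndex ∧ IsFreeGroup K) →
      (∃ g : FreeGroup (Fin 2) →* F, Function.Injective g) →
      (∃ K : Subgroup H, K.FiniteIndex ∧ Group.IsNilpotent K) →
      (∃ h : H, ∀ n : ℕ, 0 < n → h ^ n ≠ 1) →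
      MalcevCoherent (F × H) ∧ ¬ MalcevCoherent (Coprod (FreeMonoid X) (F × H))) ∧
    (∀ (X : Type u) (M : Type v) [Group M],
      ∃ (G : Type (max u v)) (_ : Group G) (f : Coprod (FreeMonoid X) M →* G),
        Function.Injective f) := by
  refine ⟨?_, ?_, ?_⟩
  · intro X _ M _ f hf
    exact not_coherent X M f hf
  · intro X _ F H _ _ hF hg hH hh
    obtain ⟨g, hg⟩ := hg
    obtain ⟨h, hh⟩ := hh
    exact products X F H hF g hg hH h hh
  · intro X M _
    exact embeds X M

end Pool.Agent.Results.MP_e5a626_al.ContainsFreeTimesZ
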